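import Mathlib.Data.Fin.VecNotation
import Mathlib.Data.Fintype.Basic
import Mathlib.Data.Finset.Card
import Mathlib.Tactic.FinCases

set_option autoImplicit false

namespace Pool.Agent.MP_038f7f_co.H79

/-- the nine-vertex 3-graph -/
def F9 : Finset (Finset (Fin 9)) :=
  {{0, 1, 2}, {0, 3, 6}, {0, 3, 7}, {0, 4, 5}, {0, 4, 8}, {0, 5, 6}, {0, 5, 8}, {0, 6, 8},
    {0, 7, 8}, {1, 4, 6}, {1, 4, 7}, {1, 5, 7}, {2, 3, 8}, {3, 5, 6}, {3, 5, 7}, {3, 5, 8},
    {4, 6, 8}, {5, 6, 8}}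

/-- table of the allowed triples of vertex types -/
def tB : ℕ :=
  375918710421630953549429031228011596338000637312445679983702281243018390347224189787887081618110931703967277828650039116690880292559920884641489188168886907846945202879640579255475989871584016412930180677596152222845488301242468464106435044755901800555106515339575672654381604672039046428896603017797095564063389764562160117553431763299255687481219972822160164303212334563347832277792719970992323936210576778698702874717878855841934478883847740390418589527491492678354445968931706176604149370945986505299181314082321868314598306177219368690624179058327369462688149433733367179979037673406464017931845283714839696577571266418759135649206774712437813673984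

/-- table of the triples of types where the middle vertex is determined by the first -/
def tP : ℕ := 350807498580478490677334373970248967296488002945024

/-- table of the ordered edges -/
def tE : ℕ :=
  11806750107091635770509251251977267883659373318910589044794056085226776171441956633621205948560974924560071010358652073499385474092692998470776437762705862371175827954468361145900937178024593074152402729969717348352

def B (a b c : ℕ) : Bool := Nat.beq ((tB >>> (169 * a + 13 * b + c)) % 2) 1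

def P (a b c : ℕ) : Bool := Nat.beq ((tP >>> (169 * a + 13 * b + c)) % 2) 1

def Ed (a b c : Fin 9) : Bool := Nat.beq ((tE >>> (81 * a.1 + 9 * b.1 + c.1)) % 2) 1

def Det (t : Fin 9 → ℕ) (p u : Fin 9) : Prop := ∃ w, Ed p u w = true ∧ P (t p) (t u) (t w) = true

instance (t : Fin 9 → ℕ) (p u : Fin 9) : Decidable (Det t p u) := by
  unfold Det; infer_instance

def Conf (t : Fin 9 → ℕ) : Prop :=
  (∃ p u, Det t p u ∧ ∃ u', u ≠ u' ∧ t u = t u' ∧ Det t p u') ∨
  (∃ p q, p ≠ q ∧ ((∀ k : Fin 6, ∃ u, t u = k.1 + 1 ∧ Det t p u ∧ Det t q u) ∨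
    (∀ k : Fin 6, ∃ u, t u = k.1 + 7 ∧ Det t p u ∧ Det t q u)))

instance (t : Fin 9 → ℕ) : Decidable (Conf t) := by
  unfold Conf; infer_instance

def al (b : Bool) (f : ℕ → Bool) : Bool := !b || (List.range 13).all f

theorem al_spec {b : Bool} {f : ℕ → Bool} (h : al b f = true) (hb : b = true) {t : ℕ}
    (ht : t < 13) : f t = true := by
  subst hb
  exact List.all_eq_true.mp h t (List.mem_range.mpr ht)

theorem check0 : (al true fun t0 => al true fun t5 => al true fun t6 =>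
    al (B t0 t5 t6) fun t8 => al (B t0 t5 t8 && B t0 t6 t8 && B t5 t6 t8) fun t3 =>
    al (B t0 t3 t6 && B t3 t5 t6 && B t3 t5 t8) fun t4 =>
    al (B t0 t4 t5 && B t0 t4 t8 && B t4 t6 t8) fun t7 =>
    al (B t0 t3 t7 && B t0 t7 t8 && B t3 t5 t7) fun t1 =>
    al (B t1 t4 t6 && B t1 t4 t7 && B t1 t5 t7) fun t2 =>
    !(B t0 t1 t2 && B t2 t3 t8) || decide (Conf ![t0, t1, t2, t3, t4, t5, t6, t7, t8])) = true := by
  decide +kernel

theorem check (t : Fin 9 → ℕ) (ht : ∀ v, t v < 13)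
    (h : ∀ p u w, Ed p u w = true → B (t p) (t u) (t w) = true) : Conf t := by
  have h1 := al_spec (al_spec (al_spec (al_spec (al_spec (al_spec (al_spec (al_spec (al_spec
    check0 rfl (ht 0)) rfl (ht 5)) rfl (ht 6)) (h 0 5 6 rfl) (ht 8))
    (by rw [h 0 5 8 rfl, h 0 6 8 rfl, h 5 6 8 rfl]; rfl) (ht 3))
    (by rw [h 0 3 6 rfl, h 3 5 6 rfl, h 3 5 8 rfl]; rfl) (ht 4))
    (by rw [h 0 4 5 rfl, h 0 4 8 rfl, h 4 6 8 rfl]; rfl) (ht 7))
    (by rw [h 0 3 7 rfl, h 0 7 8 rfl, h 3 5 7 rfl]; rfl) (ht 1))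
    (by rw [h 1 4 6 rfl, h 1 4 7 rfl, h 1 5 7 rfl]; rfl) (ht 2)
  rw [h 0 1 2 rfl, h 2 3 8 rfl] at h1
  have h2 : ![t 0, t 1, t 2, t 3, t 4, t 5, t 6, t 7, t 8] = t := by
    funext v
    fin_cases v <;> rfl
  rw [h2] at h1
  exact of_decide_eq_true h1

theorem ed_mem : ∀ p u w : Fin 9, Ed p u w = true →
    ({p, u, w} : Finset (Fin 9)) ∈ F9 ∧ p ≠ u ∧ p ≠ w ∧ u ≠ w := by
  decide +kernel

theorem mem_ed : ∀ f ∈ F9, f ≠ {0, 1, 2} → ∀ p ∈ f, ∀ u ∈ f, ∀ w ∈ f, p ≠ u → p ≠ w → u ≠ w →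
    Ed p u w = true ∧ (3 ≤ p ∨ 3 ≤ u ∨ 3 ≤ w) := by
  decide +kernel

set_option synthInstance.maxSize 100000 in
theorem serve_tab : ∀ o ∈ ({0, 6} : Finset ℕ), ∀ c < 13, (c ≤ o ∨ o + 6 < c) →
    ∀ p u w : Fin 9, Ed p u w = true → (3 ≤ p ∨ 3 ≤ u ∨ 3 ≤ w) →
    B (![0, 0, c, o + 1, o + 2, o + 3, o + 4, o + 5, o + 6] p)
      (![0, 0, c, o + 1, o + 2, o + 3, o + 4, o + 5, o + 6] u)
      (![0, 0, c, o + 1, o + 2, o + 3, o + 4, o + 5, o + 6] w) = true ∧
    (P (![0, 0, c, o + 1, o + 2, o + 3, o + 4, o + 5, o + 6] p)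
      (![0, 0, c, o + 1, o + 2, o + 3, o + 4, o + 5, o + 6] u)
      (![0, 0, c, o + 1, o + 2, o + 3, o + 4, o + 5, o + 6] w) = true → p = 0 ∧ 3 ≤ u) := by
  decide +kernel

theorem serve_inj : ∀ o ∈ ({0, 6} : Finset ℕ), ∀ c < 13, (c ≤ o ∨ o + 6 < c) →
    ∀ u v : Fin 9, ![0, 0, c, o + 1, o + 2, o + 3, o + 4, o + 5, o + 6] u =
      ![0, 0, c, o + 1, o + 2, o + 3, o + 4, o + 5, o + 6] v → u = v ∨ (u < 3 ∧ v < 3) := by
  decide +kernel

theorem card_F9 : ∀ f ∈ F9, f.card = 3 := by decide +kernel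

theorem loose_F9 : ∀ f ∈ F9, f ≠ {0, 1, 2} → (({0, 1, 2} : Finset (Fin 9)) ∩ f).card ≤ 1 := by
  decide +kernel

theorem tight_F9 : ∀ f ∈ F9, f ≠ {0, 1, 2} → ∃ g ∈ F9, g ≠ f ∧ 2 ≤ (f ∩ g).card := by
  decide +kernel

/-- the fold -/
def psi : Fin 9 → Fin 9 := ![5, 7, 1, 4, 3, 8, 0, 0, 6]

theorem fold_F9 : ∀ f ∈ F9, f.image psi ∈ F9 ∧ f.image psi ≠ {0, 1, 2} ∧ ¬ (6 ∈ f ∧ 7 ∈ f) := by
  decide +kernel

end Pool.Agent.MP_038f7f_co.H79
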