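import Mathlib
import Pool.Agent.MP_038f7f_co.h80.Build

set_option autoImplicit false

namespace Pool.Agent.MP_038f7f_co.H79

open Finset

variable {m n r : ℕ} {F : Finset (Finset (Fin m))} {G : Finset (Finset (Fin n))}

/-- vertices that can replace the image of `a` in all edges other than `e` -/
def twins (F : Finset (Finset (Fin m))) (G : Finset (Finset (Fin n))) (e : Finset (Fin m))
    (a : Fin m) (g : Fin m → Fin n) : Finset (Fin n) :=
  univ.filter (fun x => ∀ f ∈ F.erase e, a ∈ f → insert x ((f.erase a).image g) ∈ G)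

theorem twins_congr {e : Finset (Fin m)} {a : Fin m} {g g' : Fin m → Fin n}
    (h : ∀ f ∈ F.erase e, a ∈ f → ∀ u ∈ f.erase a, g u = g' u) :
    twins F G e a g = twins F G e a g' := by
  refine filter_congr fun x _ => forall_congr' fun f => forall_congr' fun hf =>
    forall_congr' fun haf => ?_
  rw [image_congr (f := g) (g := g') fun u hu => h f hf haf u hu]

theorem rich (hF : ∀ f ∈ F, f.card = r) {e : Finset (Fin m)}
    (hl : ∀ f ∈ F, f ≠ e → (e ∩ f).card ≤ 1) {ψ : Fin m → Fin m}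
    (h1 : ∀ f ∈ F, f.image ψ ∈ F.erase e) (h2 : ∀ x y, ψ x = ψ y → ψ x ∉ e → x = y)
    (φ : Fin m ↪ Fin n) (hφ : ∀ f ∈ F, f ≠ e → f.map φ ∈ G)
    (h : ∀ a ∈ e, 2 * m ≤ (twins F G e a φ).card) :
    ∃ χ : Fin m ↪ Fin n, ∀ f ∈ F, f.map χ ∈ G := by
  obtain ⟨g, gi, hg⟩ := (all_card_le_biUnion_card_iff_exists_injective
    (fun v : {v // ψ v ∈ e} => twins F G e (ψ v) φ \ univ.map φ)).mp (fun s => by
      rcases s.eq_empty_or_nonempty with rfl | ⟨v, hv⟩
      · simp
      · have a := card_le_card (subset_biUnion_of_mem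
          (fun v : {v // ψ v ∈ e} => twins F G e (ψ v) φ \ univ.map φ) hv)
        have b := le_card_sdiff (univ.map φ) (twins F G e (ψ v) φ)
        have c := h _ v.2
        have d : s.card ≤ m := (card_le_univ s).trans
          ((Fintype.card_subtype_le _).trans (Fintype.card_fin m).le)
        rw [card_map, card_univ, Fintype.card_fin] at b
        omega)
  have hne : ∀ v w, g v ≠ φ w := fun v w h =>
    (mem_sdiff.mp (hg v)).2 (h ▸ mem_map_of_mem _ (mem_univ _))
  refine ⟨⟨fun v => if h : ψ v ∈ e then g ⟨v, h⟩ else φ (ψ v), fun u v huv => ?_⟩, fun f hf => ?_⟩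
  · by_cases hu : ψ u ∈ e <;> by_cases hv : ψ v ∈ e
    · exact congrArg Subtype.val (gi (by simpa only [dif_pos hu, dif_pos hv] using huv))
    · exact absurd (by simpa only [dif_pos hu, dif_neg hv] using huv) (hne _ _)
    · exact absurd (by simpa only [dif_pos hv, dif_neg hu] using huv.symm) (hne _ _)
    · exact h2 u v (φ.injective (by simpa only [dif_neg hu, dif_neg hv] using huv)) hu
  · obtain ⟨a1, a2⟩ := mem_erase.mp (h1 f hf)
    have hi : Set.InjOn ψ f := by rw [← card_image_iff, hF _ a2, hF f hf]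
    by_cases hv : ∃ v ∈ f, ψ v ∈ e
    · obtain ⟨v, hv, hve⟩ := hv
      have hw : ∀ w ∈ f.erase v, ψ w ∉ e := fun w hw hwe => (mem_erase.mp hw).1
        (hi (mem_erase.mp hw).2 hv (card_le_one.mp (hl _ a2 a1) _
          (mem_inter.mpr ⟨hwe, mem_image_of_mem _ (mem_erase.mp hw).2⟩) _
          (mem_inter.mpr ⟨hve, mem_image_of_mem _ hv⟩)))
      have key := (mem_filter.mp (mem_sdiff.mp (hg ⟨v, hve⟩)).1).2 _ (h1 f hf)
        (mem_image_of_mem _ hv)
      have e1 : (f.image ψ).erase (ψ v) = (f.erase v).image ψ := by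
        ext z
        simp only [mem_erase, mem_image]
        constructor
        · rintro ⟨hz, w, hw, rfl⟩
          exact ⟨w, ⟨fun h => hz (h ▸ rfl), hw⟩, rfl⟩
        · rintro ⟨w, ⟨hw1, hw2⟩, rfl⟩
          exact ⟨fun h => hw1 (hi hw2 hv h), w, hw2, rfl⟩
      rw [e1, image_image] at key
      convert key using 1
      conv_lhs => rw [← insert_erase hv]
      rw [map_insert, map_eq_image]
      congr 1
      · exact dif_pos hve
      · exact image_congr fun w hw' => dif_neg (hw w hw')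
    · convert hφ _ a2 a1 using 1
      rw [map_eq_image, map_eq_image, image_image]
      exact image_congr fun w hw => dif_neg fun h => hv ⟨w, hw, h⟩

/-- closed neighbourhood -/
def nb (G : Finset (Finset (Fin n))) (y : Fin n) : Finset (Fin n) :=
  insert y ((G.filter (fun s => y ∈ s)).biUnion id)

theorem sum_nb (h1 : ∀ s ∈ G, s.card = r) : ∑ y, (nb G y).card ≤ n + r ^ 2 * G.card := by
  have a : ∀ y, (nb G y).card ≤ 1 + (G.filter (fun s => y ∈ s)).card * r := fun y =>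
    (card_insert_le _ _).trans (by
      have := card_biUnion_le_card_mul (G.filter (fun s => y ∈ s)) id r
        (fun s hs => (h1 s (mem_filter.mp hs).1).le)
      omega)
  have b : ∑ y, (G.filter (fun s => y ∈ s)).card = G.card * r := by
    refine (sum_card_bipartiteAbove_eq_sum_card_bipartiteBelow (s := univ) (t := G)
      (r := fun y s => y ∈ s)).trans (sum_const_nat (m := r) fun s hs => ?_)
    rw [← h1 s hs]
    congr 1
    ext y
    simp
  refine (sum_le_sum fun y _ => a y).trans (le_of_eq ?_)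
  rw [sum_add_distrib, ← sum_mul, b]
  simp
  ring

theorem count (hr : 2 ≤ r) (hF : ∀ f ∈ F, f.card = r)
    (H : ∀ e ∈ F, (∀ f ∈ F, f ≠ e → (e ∩ f).card ≤ 1) →
      (∃ ψ : Fin m → Fin m, (∀ f ∈ F, f.image ψ ∈ F.erase e) ∧
        ∀ x y, ψ x = ψ y → ψ x ∉ e → x = y) ∧
      ∀ a ∈ e, ∀ u ∉ e, (∃ f ∈ F, a ∈ f ∧ u ∈ f) → ∃ b ∈ e, b ≠ a ∧ ∃ f ∈ F, b ∈ f ∧ u ∈ f)
    (h1 : ∀ s ∈ G, s.card = r) (h2 : ¬ ∃ φ : Fin m ↪ Fin n, ∀ f ∈ F, f.map φ ∈ G)
    (h3 : ∀ s : Finset (Fin n), s.card = r → s ∉ G →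
      ∃ φ : Fin m ↪ Fin n, ∀ f ∈ F, f.map φ ∈ insert s G)
    (L : Finset (Fin n)) (D : ℕ) (hD : ∀ y ∈ L, (nb G y).card ≤ D) :
    L.card.choose r ≤ G.card * r ^ 2 * n.choose (r - 2) +
      F.card * m * (n.choose (r - 1) * ((r * D) ^ m * (2 * m))) := by
  set P := G.biUnion (fun s => s ×ˢ s) with hP
  have hPc : P.card ≤ G.card * r ^ 2 :=
    card_biUnion_le_card_mul _ _ _ (fun s hs => by rw [card_product, h1 s hs, sq])
  set A := (powersetCard r L).filter (fun s => ∃ p ∈ P, p.1 ≠ p.2 ∧ p.1 ∈ s ∧ p.2 ∈ s) with hA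
  have hAc : A.card ≤ P.card * n.choose (r - 2) := H80.card_pairs_le A P
    (fun s hs => (mem_powersetCard.mp (mem_filter.mp hs).1).2) (fun s hs => (mem_filter.mp hs).2)
  set B := (F ×ˢ (univ : Finset (Fin m))).biUnion (fun q => (powersetCard (r - 1) L).biUnion
    (fun t => (Fintype.piFinset (fun _ : Fin m => t.biUnion (nb G))).biUnion (fun g =>
      (if (twins F G q.1 q.2 g).card < 2 * m then twins F G q.1 q.2 g else ∅).image
        (fun x => insert x t)))) with hB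
  have hBc : B.card ≤ F.card * m * (n.choose (r - 1) * ((r * D) ^ m * (2 * m))) := by
    refine (card_biUnion_le_card_mul _ _ _ fun q _ => ?_).trans (by
      rw [card_product, card_univ, Fintype.card_fin])
    refine (card_biUnion_le_card_mul _ _ ((r * D) ^ m * (2 * m)) fun t ht => ?_).trans
      (Nat.mul_le_mul_right _ ?_)
    · refine (card_biUnion_le_card_mul _ _ (2 * m) fun g _ => card_image_le.trans ?_).trans
        (Nat.mul_le_mul_right _ ?_)
      · split_ifs with h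
        · exact h.le
        · simp
      · rw [Fintype.card_piFinset, prod_const, card_univ, Fintype.card_fin]
        obtain ⟨a, b⟩ := mem_powersetCard.mp ht
        refine Nat.pow_le_pow_left ((card_biUnion_le_card_mul _ _ D fun y hy => hD y (a hy)).trans
          (Nat.mul_le_mul_right _ (by omega))) _
    · rw [card_powersetCard]
      exact Nat.choose_le_choose _ ((card_le_univ L).trans (Fintype.card_fin n).le)
  have hsub : powersetCard r L ⊆ A ∪ B := by
    intro s hs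
    by_cases hsA : s ∈ A
    · exact mem_union_left _ hsA
    refine mem_union_right _ ?_
    obtain ⟨hsL, hsr⟩ := mem_powersetCard.mp hs
    have hcov : ∀ g ∈ G, (s ∩ g).card ≤ 1 := fun g hg => card_le_one.mpr fun u hu v hv => by
      by_contra huv
      exact hsA (mem_filter.mpr ⟨hs, (u, v), mem_biUnion.mpr ⟨g, hg, mem_product.mpr
        ⟨(mem_inter.mp hu).2, (mem_inter.mp hv).2⟩⟩, huv, (mem_inter.mp hu).1,
        (mem_inter.mp hv).1⟩)
    obtain ⟨φ, hφ⟩ := h3 s hsr (fun h => by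
      have := hcov s h
      rw [inter_self] at this
      omega)
    obtain ⟨e, he, es⟩ : ∃ e ∈ F, e.map φ = s := by
      by_contra hc
      exact h2 ⟨φ, fun f hf => (mem_insert.mp (hφ f hf)).resolve_left fun h => hc ⟨f, hf, h⟩⟩
    have hoth : ∀ g ∈ F, g ≠ e → g.map φ ∈ G := fun g hg hge =>
      (mem_insert.mp (hφ g hg)).resolve_left fun h => hge (map_injective φ (h.trans es.symm))
    have hl : ∀ f ∈ F, f ≠ e → (e ∩ f).card ≤ 1 := fun f hf hfe => by
      have := hcov _ (hoth f hf hfe)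
      rwa [← es, ← map_inter, card_map] at this
    obtain ⟨⟨ψ, p1, p2⟩, p3⟩ := H e he hl
    obtain ⟨a, ha, hlt⟩ : ∃ a ∈ e, (twins F G e a φ).card < 2 * m := by
      by_contra hc
      exact h2 (rich hF hl p1 p2 φ hoth fun a ha => not_lt.mp fun h => hc ⟨a, ha, h⟩)
    have has : φ a ∈ s := es ▸ mem_map_of_mem _ ha
    have hts : ∀ b ∈ e, b ≠ a → φ b ∈ s.erase (φ a) := fun b hb hba =>
      mem_erase.mpr ⟨φ.injective.ne hba, es ▸ mem_map_of_mem _ hb⟩
    obtain ⟨b0, hb0⟩ : (e.erase a).Nonempty := card_pos.mp (by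
      rw [card_erase_of_mem ha, hF e he]; omega)
    obtain ⟨g, g1, g2⟩ : ∃ g : Fin m → Fin n, (∀ u, g u ∈ (s.erase (φ a)).biUnion (nb G)) ∧
        ∀ u, φ u ∈ (s.erase (φ a)).biUnion (nb G) → g u = φ u := by
      refine ⟨fun u => if φ u ∈ (s.erase (φ a)).biUnion (nb G) then φ u else φ b0,
        fun u => ?_, fun u h => if_pos h⟩
      simp only
      split_ifs with h
      · exact h
      · exact mem_biUnion.mpr ⟨_, hts b0 (mem_erase.mp hb0).2 (mem_erase.mp hb0).1,
          mem_insert_self _ _⟩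
    have hg : twins F G e a g = twins F G e a φ := by
      refine twins_congr fun f hf haf u hu => g2 u ?_
      obtain ⟨f1, f2⟩ := mem_erase.mp hf
      obtain ⟨u1, u2⟩ := mem_erase.mp hu
      have hue : u ∉ e := fun h => u1 (card_le_one.mp (hl f f2 f1) _ (mem_inter.mpr ⟨h, u2⟩) _
        (mem_inter.mpr ⟨ha, haf⟩))
      obtain ⟨b, hb, hba, f', hf', hbf, huf⟩ := p3 a ha u hue ⟨f, f2, haf, u2⟩
      have hne : f' ≠ e := fun h => hue (h ▸ huf)
      exact mem_biUnion.mpr ⟨_, hts b hb hba, mem_insert_of_mem (mem_biUnion.mpr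
        ⟨f'.map φ, mem_filter.mpr ⟨hoth f' hf' hne, mem_map_of_mem _ hbf⟩,
          mem_map_of_mem φ huf⟩)⟩
    refine mem_biUnion.mpr ⟨(e, a), mem_product.mpr ⟨he, mem_univ _⟩, mem_biUnion.mpr
      ⟨s.erase (φ a), mem_powersetCard.mpr ⟨(erase_subset _ _).trans hsL, by
        rw [card_erase_of_mem has, hsr]⟩, mem_biUnion.mpr
      ⟨g, Fintype.mem_piFinset.mpr g1, ?_⟩⟩⟩
    simp only
    rw [hg, if_pos hlt]
    refine mem_image.mpr ⟨φ a, mem_filter.mpr ⟨mem_univ _, fun f hf haf => ?_⟩, insert_erase has⟩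
    rw [← image_insert, insert_erase haf, ← map_eq_image]
    exact hoth f (mem_erase.mp hf).2 (mem_erase.mp hf).1
  have := (card_le_card hsub).trans (card_union_le _ _)
  rw [card_powersetCard] at this
  exact this.trans (Nat.add_le_add (hAc.trans (Nat.mul_le_mul_right _ hPc)) hBc)

theorem arith (r m c : ℕ) (hr : 2 ≤ r) (hm : 1 ≤ m) : ∃ C n₀ : ℕ, ∀ n l g D : ℕ, n₀ ≤ n →
    n ≤ 2 * l → n * D ≤ 2 * (n + r ^ 2 * g) →
    l.choose r ≤ g * r ^ 2 * n.choose (r - 2) + c * (n.choose (r - 1) * ((r * D) ^ m * (2 * m))) →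
    n ^ (m + 1) ≤ C * g ^ m := by
  obtain ⟨k, rfl⟩ := Nat.exists_eq_add_of_le' hr
  set A := 4 ^ (k + 2) * (k + 2).factorial with hA
  set R := k + 2 with hR
  refine ⟨(2 * A * R ^ 2) ^ m + 2 * A * c * (2 * m) * (4 * R * R ^ 2) ^ m,
    4 * R + 2 * A * c * (2 * m) * (4 * R) ^ m + 1, fun n l g D hn hl hD h => ?_⟩
  have hn0 : 0 < n := by omega
  have e1 : n ^ R ≤ A * l.choose R := by
    calc n ^ R ≤ (4 * (l + 1 - R)) ^ R := Nat.pow_le_pow_left (by omega) _
      _ = 4 ^ R * (l + 1 - R) ^ R := mul_pow _ _ _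
      _ ≤ 4 ^ R * l.descFactorial R := Nat.mul_le_mul_left _ (Nat.pow_sub_le_descFactorial _ _)
      _ = A * l.choose R := by rw [Nat.descFactorial_eq_factorial_mul_choose, hA, mul_assoc]
  have e2 : n.choose (R - 2) ≤ n ^ k := Nat.choose_le_pow _ _
  have e3 : n.choose (R - 1) ≤ n ^ (k + 1) := Nat.choose_le_pow _ _
  set M := n + R ^ 2 * g with hM
  have e4 : n ^ m * (R * D) ^ m ≤ (2 * R * M) ^ m := by
    rw [← mul_pow]
    exact Nat.pow_le_pow_left (by nlinarith) _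
  have e5 : n ^ k * n ^ (m + 2) ≤
      n ^ k * (A * R ^ 2 * g * n ^ m + A * c * (2 * m) * (2 * R * M) ^ m * n) := by
    calc n ^ k * n ^ (m + 2) = n ^ m * n ^ R := by rw [hR]; ring
      _ ≤ n ^ m * (A * (g * R ^ 2 * n ^ k + c * (n ^ (k + 1) * ((R * D) ^ m * (2 * m))))) := by
          refine Nat.mul_le_mul_left _ (e1.trans (Nat.mul_le_mul_left _ (h.trans ?_)))
          gcongr
      _ = n ^ k * (A * R ^ 2 * g * n ^ m + A * c * (2 * m) * (n ^ m * (R * D) ^ m) * n) := by ring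
      _ ≤ _ := by gcongr
  have e6 := Nat.le_of_mul_le_mul_left e5 (pow_pos hn0 k)
  by_cases c1 : n ^ 2 ≤ 2 * A * R ^ 2 * g
  · calc n ^ (m + 1) ≤ n ^ (2 * m) := Nat.pow_le_pow_right hn0 (by omega)
      _ = (n ^ 2) ^ m := pow_mul _ _ _
      _ ≤ (2 * A * R ^ 2 * g) ^ m := Nat.pow_le_pow_left c1 _
      _ = (2 * A * R ^ 2) ^ m * g ^ m := mul_pow _ _ _
      _ ≤ _ := Nat.mul_le_mul_right _ (Nat.le_add_right _ _)
  · have e7 : 2 * (A * R ^ 2 * g * n ^ m) ≤ n ^ (m + 2) := by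
      calc 2 * (A * R ^ 2 * g * n ^ m) = 2 * A * R ^ 2 * g * n ^ m := by ring
        _ ≤ n ^ 2 * n ^ m := Nat.mul_le_mul_right _ (by omega)
        _ = n ^ (m + 2) := by ring
    have e8 : n ^ (m + 1) ≤ 2 * A * c * (2 * m) * (2 * R * M) ^ m := by
      refine Nat.le_of_mul_le_mul_right ?_ hn0
      calc n ^ (m + 1) * n = n ^ (m + 2) := by ring
        _ ≤ 2 * (A * c * (2 * m) * (2 * R * M) ^ m * n) := by omega
        _ = _ := by ring
    by_cases c2 : n ≤ R ^ 2 * g
    · calc n ^ (m + 1) ≤ 2 * A * c * (2 * m) * (4 * R * R ^ 2 * g) ^ m :=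
          e8.trans (Nat.mul_le_mul_left _ (Nat.pow_le_pow_left (by nlinarith) _))
        _ = 2 * A * c * (2 * m) * (4 * R * R ^ 2) ^ m * g ^ m := by rw [mul_pow]; ring
        _ ≤ _ := Nat.mul_le_mul_right _ (Nat.le_add_left _ _)
    · have e9 : n * n ^ m ≤ 2 * A * c * (2 * m) * (4 * R) ^ m * n ^ m := by
        calc n * n ^ m = n ^ (m + 1) := by ring
          _ ≤ 2 * A * c * (2 * m) * (4 * R * n) ^ m :=
            e8.trans (Nat.mul_le_mul_left _ (Nat.pow_le_pow_left (by nlinarith) _))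
          _ = _ := by rw [mul_pow]; ring
      have := Nat.le_of_mul_le_mul_right e9 (pow_pos hn0 m)
      omega

theorem lower_gen (hr : 2 ≤ r) (hm : 1 ≤ m) (hF : ∀ f ∈ F, f.card = r)
    (H : ∀ e ∈ F, (∀ f ∈ F, f ≠ e → (e ∩ f).card ≤ 1) →
      (∃ ψ : Fin m → Fin m, (∀ f ∈ F, f.image ψ ∈ F.erase e) ∧
        ∀ x y, ψ x = ψ y → ψ x ∉ e → x = y) ∧
      ∀ a ∈ e, ∀ u ∉ e, (∃ f ∈ F, a ∈ f ∧ u ∈ f) → ∃ b ∈ e, b ≠ a ∧ ∃ f ∈ F, b ∈ f ∧ u ∈ f) :
    ∃ C n₀ : ℕ, ∀ n, n₀ ≤ n → ∀ G : Finset (Finset (Fin n)), (∀ s ∈ G, s.card = r) →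
      (¬ ∃ φ : Fin m ↪ Fin n, ∀ f ∈ F, f.map φ ∈ G) →
      (∀ s : Finset (Fin n), s.card = r → s ∉ G →
        ∃ φ : Fin m ↪ Fin n, ∀ f ∈ F, f.map φ ∈ insert s G) →
      n ^ (m + 1) ≤ C * G.card ^ m := by
  obtain ⟨C, n₀, h⟩ := arith r m (F.card * m) hr hm
  refine ⟨C, n₀ + 1, fun n hn G h1 h2 h3 => ?_⟩
  have hs := sum_nb h1
  set M := n + r ^ 2 * G.card with hM
  set L := univ.filter (fun y => n * (nb G y).card ≤ 2 * M) with hL
  have hL2 : n ≤ 2 * L.card := by
    have a : Lᶜ.card * (2 * M + 1) ≤ ∑ y ∈ Lᶜ, n * (nb G y).card := by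
      rw [← smul_eq_mul]
      refine card_nsmul_le_sum _ _ _ fun y hy => ?_
      have := mem_compl.mp hy
      rw [hL, mem_filter] at this
      exact Nat.succ_le_of_lt (not_le.mp fun h => this ⟨mem_univ _, h⟩)
    have b : ∑ y ∈ Lᶜ, n * (nb G y).card ≤ n * M := by
      rw [← mul_sum]
      exact Nat.mul_le_mul_left _ ((sum_le_sum_of_subset (subset_univ _)).trans hs)
    have c := card_add_card_compl L
    rw [Fintype.card_fin] at c
    have d : 2 * Lᶜ.card * (2 * M + 1) ≤ n * (2 * M + 1) := by nlinarith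
    have e := Nat.le_of_mul_le_mul_right d (by omega)
    omega
  refine h n L.card G.card (2 * M / n) (by omega) hL2 (Nat.mul_div_le _ _)
    (count hr hF H h1 h2 h3 L _ fun y hy => ?_)
  rw [Nat.le_div_iff_mul_le (by omega), mul_comm]
  exact (mem_filter.mp hy).2

end Pool.Agent.MP_038f7f_co.H79
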