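import Mathlib
import Pool.Agent.MP_038f7f_co.h79.Check

set_option autoImplicit false

namespace Pool.Agent.MP_038f7f_co.H79

open Finset

/-- two copies of `F9` minus its loose edge that differ only at vertex `0` give a copy of `F9` -/
theorem twin {n : ℕ} {G : Finset (Finset (Fin n))}
    (h2 : ¬ ∃ φ : Fin 9 ↪ Fin n, ∀ f ∈ F9, f.map φ ∈ G) {φ φ' : Fin 9 ↪ Fin n}
    (hφ : ∀ f ∈ F9, f ≠ {0, 1, 2} → f.map φ ∈ G) (hφ' : ∀ f ∈ F9, f ≠ {0, 1, 2} → f.map φ' ∈ G)
    (h : ∀ v, v ≠ 0 → φ v = φ' v) : φ = φ' := by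
  by_contra hne
  have h0 : φ 0 ≠ φ' 0 := fun h0 => hne (Function.Embedding.ext fun v => by
    by_cases hv : v = 0
    · rw [hv, h0]
    · exact h v hv)
  have p1 : ∀ u v, u ≠ 7 → v ≠ 7 → psi u = psi v → u = v := by decide
  have p2 : ∀ u, u ≠ 6 → u ≠ 7 → psi u ≠ 0 := by decide
  have p3 : ∀ v, φ' 0 ≠ φ (psi v) := by
    intro v hv
    by_cases h1 : psi v = 0
    · exact h0 (by rw [hv, h1])
    · exact h1 (φ'.injective (hv.trans (h _ h1))).symm
  refine h2 ⟨⟨fun v => if v = 7 then φ' 0 else φ (psi v), fun u v huv => ?_⟩, fun f hf => ?_⟩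
  · by_cases hu : u = 7 <;> by_cases hv : v = 7
    · rw [hu, hv]
    · exact absurd (by simpa only [if_pos hu, if_neg hv] using huv) (p3 v)
    · exact absurd (by simpa only [if_pos hv, if_neg hu] using huv.symm) (p3 u)
    · exact p1 u v hu hv (φ.injective (by simpa only [if_neg hu, if_neg hv] using huv))
  · obtain ⟨a, b, c⟩ := fold_F9 f hf
    by_cases h7 : 7 ∈ f
    · convert hφ' _ a b using 1
      rw [map_eq_image, map_eq_image, image_image]
      refine image_congr fun v hv => ?_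
      show (if v = 7 then φ' 0 else φ (psi v)) = φ' (psi v)
      by_cases hv7 : v = 7
      · rw [if_pos hv7, hv7]; rfl
      · rw [if_neg hv7]
        exact h _ (p2 v (fun h6 => c ⟨h6 ▸ hv, h7⟩) hv7)
    · convert hφ _ a b using 1
      rw [map_eq_image, map_eq_image, image_image]
      refine image_congr fun v hv => ?_
      exact if_neg (fun hv7 : v = 7 => h7 (hv7 ▸ hv))

/-- ordered link of a vertex -/
def link {n : ℕ} (G : Finset (Finset (Fin n))) (y : Fin n) : Finset (Fin n × Fin n) :=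
  univ.filter (fun q => {y, q.1, q.2} ∈ G)

theorem sum_link {n : ℕ} {G : Finset (Finset (Fin n))} (h1 : ∀ s ∈ G, s.card = 3) :
    ∑ y, (link G y).card ≤ 27 * G.card := by
  rw [← card_sigma, mul_comm]
  refine (card_le_card_of_injOn (t := G.biUnion (fun s => s ×ˢ s ×ˢ s)) (fun p => (p.1, p.2))
    (fun p hp => ?_) (fun p _ q _ h => ?_)).trans (card_biUnion_le_card_mul _ _ _ fun s hs => ?_)
  · refine mem_coe.mpr (mem_biUnion.mpr ⟨_, (mem_filter.mp (mem_sigma.mp hp).2).2, ?_⟩)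
    simp
  · obtain ⟨a, b⟩ := p
    obtain ⟨c, d⟩ := q
    obtain ⟨rfl, rfl⟩ := Prod.mk.inj h
    rfl
  · rw [card_product, card_product, h1 s hs]

theorem mem_link {n : ℕ} {G : Finset (Finset (Fin n))} {φ : Fin 9 ↪ Fin n}
    (hφ : ∀ f ∈ F9, f ≠ {0, 1, 2} → f.map φ ∈ G) (a b c : Fin 9)
    (h : ({a, b, c} : Finset (Fin 9)) ∈ F9 ∧ ({a, b, c} : Finset (Fin 9)) ≠ {0, 1, 2}) :
    (φ b, φ c) ∈ link G (φ a) := by
  have := hφ _ h.1 h.2
  rw [map_insert, map_insert, map_singleton] at this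
  exact mem_filter.mpr ⟨mem_univ _, this⟩

theorem lower (n : ℕ) (hn : 48 ≤ n) (G : Finset (Finset (Fin n))) (h1 : ∀ s ∈ G, s.card = 3)
    (h2 : ¬ ∃ φ : Fin 9 ↪ Fin n, ∀ f ∈ F9, f.map φ ∈ G)
    (h3 : ∀ s : Finset (Fin n), s.card = 3 → s ∉ G →
      ∃ φ : Fin 9 ↪ Fin n, ∀ f ∈ F9, f.map φ ∈ insert s G) :
    n ^ 4 ≤ 10 ^ 9 * G.card ^ 3 := by
  classical
  have hs := sum_link h1
  set m := G.card with hm
  set L := univ.filter (fun y => n * (link G y).card ≤ 54 * m) with hL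
  have hL2 : n ≤ 2 * L.card := by
    have a : Lᶜ.card * (54 * m + 1) ≤ ∑ y ∈ Lᶜ, n * (link G y).card := by
      rw [← smul_eq_mul]
      refine card_nsmul_le_sum _ _ _ fun y hy => ?_
      have := mem_compl.mp hy
      rw [hL, mem_filter] at this
      exact Nat.succ_le_of_lt (not_le.mp fun h => this ⟨mem_univ _, h⟩)
    have b : ∑ y ∈ Lᶜ, n * (link G y).card ≤ n * (27 * m) := by
      rw [← mul_sum]
      exact Nat.mul_le_mul_left _ ((sum_le_sum_of_subset (subset_univ _)).trans hs)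
    have c := card_add_card_compl L
    rw [Fintype.card_fin] at c
    have d : 2 * Lᶜ.card * (54 * m + 1) ≤ n * (54 * m + 1) := by nlinarith
    have e := Nat.le_of_mul_le_mul_right d (by omega)
    omega
  set Φ := univ.filter (fun φ : Fin 9 ↪ Fin n => φ 1 ∈ L ∧ ∀ f ∈ F9, f ≠ {0, 1, 2} → f.map φ ∈ G)
    with hΦ
  have hΦc : n * Φ.card ≤ 54 * m * (27 * m) * (27 * m) := by
    have a : Φ.card ≤ ((L.sigma fun y => link G y ×ˢ link G y) ×ˢ univ.sigma (link G)).card := by
      refine card_le_card_of_injOn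
        (fun φ => (⟨φ 1, (φ 4, φ 6), (φ 5, φ 7)⟩, ⟨φ 2, (φ 3, φ 8)⟩)) (fun φ hφ => ?_)
        (fun φ hφ φ' hφ' h => ?_)
      · obtain ⟨a, b⟩ := (mem_filter.mp hφ).2
        exact mem_coe.mpr (mem_product.mpr ⟨mem_sigma.mpr ⟨a, mem_product.mpr
          ⟨mem_link b 1 4 6 (by decide), mem_link b 1 5 7 (by decide)⟩⟩,
          mem_sigma.mpr ⟨mem_univ _, mem_link b 2 3 8 (by decide)⟩⟩)
      · refine twin h2 (mem_filter.mp hφ).2.2 (mem_filter.mp hφ').2.2 fun v hv => ?_
        simp only [Prod.mk.injEq, Sigma.mk.injEq, heq_eq_eq] at h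
        obtain ⟨⟨e1, ⟨e4, e6⟩, e5, e7⟩, e2, e3, e8⟩ := h
        fin_cases v
        · exact absurd rfl hv
        all_goals assumption
    rw [card_product, card_sigma, card_sigma] at a
    have b : n * ∑ y ∈ L, (link G y ×ˢ link G y).card ≤ 54 * m * (27 * m) := by
      rw [mul_sum]
      refine (sum_le_sum (g := fun y => 54 * m * (link G y).card) fun y hy => ?_).trans ?_
      · rw [card_product, ← mul_assoc]
        exact Nat.mul_le_mul_right _ (mem_filter.mp hy).2
      · rw [← mul_sum]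
        exact Nat.mul_le_mul_left _ ((sum_le_sum_of_subset (subset_univ _)).trans hs)
    refine (Nat.mul_le_mul_left _ a).trans ?_
    rw [← mul_assoc]
    exact Nat.mul_le_mul b hs
  set C := (univ : Finset (Fin n)).diag ∪ G.biUnion (fun s => s ×ˢ s) with hC
  have hCc : C.card ≤ n + m * 9 := by
    refine (card_union_le _ _).trans (Nat.add_le_add ?_ (card_biUnion_le_card_mul _ _ _ ?_))
    · simp
    · intro s hs
      rw [card_product, h1 s hs]
  have hsub : L ×ˢ L ×ˢ L ⊆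
      ((C ×ˢ univ).image (fun p : (Fin n × Fin n) × Fin n => (p.1.1, p.1.2, p.2)) ∪
      (C ×ˢ univ).image (fun p : (Fin n × Fin n) × Fin n => (p.1.1, p.2, p.1.2)) ∪
      (C ×ˢ univ).image (fun p : (Fin n × Fin n) × Fin n => (p.2, p.1.1, p.1.2))) ∪
      Φ.biUnion (fun φ => ({0, 1, 2} : Finset (Fin 9)).map φ ×ˢ
        ({0, 1, 2} : Finset (Fin 9)).map φ ×ˢ ({0, 1, 2} : Finset (Fin 9)).map φ) := by
    rintro ⟨x, y, z⟩ hxyz
    obtain ⟨hx, hyz⟩ := mem_product.mp hxyz
    obtain ⟨hy, hz⟩ := mem_product.mp hyz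
    by_cases c1 : (x, y) ∈ C
    · exact mem_union_left _ (mem_union_left _ (mem_union_left _
        (mem_image.mpr ⟨((x, y), z), mem_product.mpr ⟨c1, mem_univ _⟩, rfl⟩)))
    by_cases c2 : (x, z) ∈ C
    · exact mem_union_left _ (mem_union_left _ (mem_union_right _
        (mem_image.mpr ⟨((x, z), y), mem_product.mpr ⟨c2, mem_univ _⟩, rfl⟩)))
    by_cases c3 : (y, z) ∈ C
    · exact mem_union_left _ (mem_union_right _
        (mem_image.mpr ⟨((y, z), x), mem_product.mpr ⟨c3, mem_univ _⟩, rfl⟩))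
    have ne : ∀ {u v}, (u, v) ∉ C → u ≠ v := fun h e =>
      h (mem_union_left _ (mem_diag.mpr ⟨mem_univ _, e⟩))
    have cov : ∀ g ∈ G, ∀ {u v}, (u, v) ∉ C → u ∈ g → v ∈ g → False := fun g hg _ _ h a b =>
      h (mem_union_right _ (mem_biUnion.mpr ⟨g, hg, mem_product.mpr ⟨a, b⟩⟩))
    have hcov : ∀ g ∈ G, (({x, y, z} : Finset (Fin n)) ∩ g).card ≤ 1 := by
      intro g hg
      refine card_le_one.mpr fun u hu v hv => ?_
      obtain ⟨a, b⟩ := mem_inter.mp hu
      obtain ⟨c, d⟩ := mem_inter.mp hv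
      simp only [mem_insert, mem_singleton] at a c
      rcases a with rfl | rfl | rfl <;> rcases c with rfl | rfl | rfl
      · rfl
      · exact (cov g hg c1 b d).elim
      · exact (cov g hg c2 b d).elim
      · exact (cov g hg c1 d b).elim
      · rfl
      · exact (cov g hg c3 b d).elim
      · exact (cov g hg c2 d b).elim
      · exact (cov g hg c3 d b).elim
      · rfl
    have hc3 : ({x, y, z} : Finset (Fin n)).card = 3 :=
      card_eq_three.mpr ⟨x, y, z, ne c1, ne c2, ne c3, rfl⟩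
    obtain ⟨φ, hφ⟩ := h3 _ hc3 (fun h => cov _ h c1 (by simp) (by simp))
    obtain ⟨f, hf, e⟩ : ∃ f ∈ F9, f.map φ = {x, y, z} := by
      by_contra hc
      exact h2 ⟨φ, fun f hf => (mem_insert.mp (hφ f hf)).resolve_left fun h => hc ⟨f, hf, h⟩⟩
    have hoth : ∀ g ∈ F9, g ≠ f → g.map φ ∈ G := fun g hg hgf =>
      (mem_insert.mp (hφ g hg)).resolve_left fun h => hgf (map_injective φ (h.trans e.symm))
    have hfe : f = {0, 1, 2} := by
      by_contra hc
      obtain ⟨g, hg, hgf, h⟩ := tight_F9 f hf hc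
      have := hcov _ (hoth g hg hgf)
      rw [← e, ← map_inter, card_map] at this
      omega
    subst hfe
    refine mem_union_right _ (mem_biUnion.mpr ⟨φ, mem_filter.mpr ⟨mem_univ _, ?_, hoth⟩, ?_⟩)
    · have : φ 1 ∈ ({x, y, z} : Finset (Fin n)) := e ▸ mem_map_of_mem _ (by simp)
      simp only [mem_insert, mem_singleton] at this
      rcases this with h | h | h <;> rw [h] <;> assumption
    · rw [e]
      simp
  have hcard := card_le_card hsub
  have i1 : ∀ g : (Fin n × Fin n) × Fin n → Fin n × Fin n × Fin n,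
      ((C ×ˢ univ).image g).card ≤ (n + m * 9) * n := fun g =>
    card_image_le.trans (by
      rw [card_product, card_univ, Fintype.card_fin]; exact Nat.mul_le_mul_right _ hCc)
  have hfin : L.card * (L.card * L.card) ≤ 3 * ((n + m * 9) * n) + Φ.card * 27 := by
    rw [card_product, card_product] at hcard
    refine hcard.trans ((card_union_le _ _).trans (Nat.add_le_add ?_
      (card_biUnion_le_card_mul _ _ _ fun φ _ => ?_)))
    · refine (card_union_le _ _).trans ?_
      have := (card_union_le _ _).trans (Nat.add_le_add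
        (i1 fun p => (p.1.1, p.1.2, p.2)) (i1 fun p => (p.1.1, p.2, p.1.2)))
      have := i1 fun p => (p.2, p.1.1, p.1.2)
      omega
    · rw [card_product, card_product, card_map]
      decide
  have k1 : n ^ 3 ≤ 8 * (L.card * (L.card * L.card)) :=
    (Nat.pow_le_pow_left hL2 3).trans (le_of_eq (by ring))
  have k2 : n ^ 4 ≤ 24 * n ^ 3 + 216 * (n ^ 2 * m) + 8503056 * m ^ 3 := by
    calc n ^ 4 = n * n ^ 3 := by ring
      _ ≤ n * (8 * (3 * ((n + m * 9) * n) + Φ.card * 27)) :=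
          Nat.mul_le_mul_left _ (k1.trans (Nat.mul_le_mul_left _ hfin))
      _ = 24 * n ^ 3 + 216 * (n ^ 2 * m) + 216 * (n * Φ.card) := by ring
      _ ≤ 24 * n ^ 3 + 216 * (n ^ 2 * m) + 216 * (54 * m * (27 * m) * (27 * m)) := by gcongr
      _ = _ := by ring
  have k3 : 48 * n ^ 3 ≤ n ^ 4 := by rw [pow_succ' n 3]; exact Nat.mul_le_mul_right _ hn
  by_cases k4 : n ^ 2 ≤ 864 * m
  · calc n ^ 4 ≤ n ^ 6 := Nat.pow_le_pow_right (by omega) (by norm_num)
      _ = (n ^ 2) ^ 3 := by ring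
      _ ≤ (864 * m) ^ 3 := Nat.pow_le_pow_left k4 3
      _ = 864 ^ 3 * m ^ 3 := by ring
      _ ≤ 10 ^ 9 * m ^ 3 := Nat.mul_le_mul_right _ (by norm_num)
  · have k5 : 864 * (n ^ 2 * m) ≤ n ^ 4 := by
      calc 864 * (n ^ 2 * m) = n ^ 2 * (864 * m) := by ring
        _ ≤ n ^ 2 * n ^ 2 := Nat.mul_le_mul_left _ (by omega)
        _ = n ^ 4 := by ring
    omega

end Pool.Agent.MP_038f7f_co.H79
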