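import Mathlib
import Pool.Agent.MP_038f7f_co.h80.Build
import Pool.Agent.MP_038f7f_co.h79.Check

set_option autoImplicit false

namespace Pool.Agent.MP_038f7f_co.H79

open Finset

/-- vertex types and preferred hubs -/
theorem design (n m : ℕ) (h12 : 12 * m ≤ n) (h6 : n ≤ m ^ 6) :
    ∃ (τ : Fin n → ℕ) (pt : Fin n → ℕ → Fin n), (∀ x, τ x < 13) ∧
      (∀ x k, 1 ≤ k → k ≤ 12 → τ (pt x k) = k) ∧
      (∀ x y, (∀ k : Fin 6, pt x (k.1 + 1) = pt y (k.1 + 1)) → x = y) ∧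
      (∀ x y, (∀ k : Fin 6, pt x (k.1 + 7) = pt y (k.1 + 7)) → x = y) ∧
      (univ.filter (fun x => τ x ≠ 0)).card ≤ 12 * m := by
  obtain ⟨c⟩ : Nonempty (Fin n ↪ (Fin 6 → Fin m)) :=
    Function.Embedding.nonempty_of_card_le (by simpa using h6)
  refine ⟨fun x => if x.1 < 12 * m then x.1 % 12 + 1 else 0,
    fun x k => ⟨12 * (c x ⟨(k - 1) % 6, Nat.mod_lt _ (by norm_num)⟩).1 + (k - 1) % 12, ?_⟩,
    fun x => ?_, fun x k h1 h2 => ?_, fun x y h => ?_, fun x y h => ?_, ?_⟩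
  · have := (c x ⟨(k - 1) % 6, Nat.mod_lt _ (by norm_num)⟩).2
    omega
  · simp only
    split_ifs <;> omega
  · have := (c x ⟨(k - 1) % 6, Nat.mod_lt _ (by norm_num)⟩).2
    simp only
    rw [if_pos (by omega)]
    omega
  · refine c.injective (funext fun k => Fin.ext ?_)
    have h1 := congrArg Fin.val (h k)
    have h2 : (⟨(k.1 + 1 - 1) % 6, Nat.mod_lt _ (by norm_num)⟩ : Fin 6) = k :=
      Fin.ext (by have := k.2; simp only; omega)
    simp only [h2] at h1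
    omega
  · refine c.injective (funext fun k => Fin.ext ?_)
    have h1 := congrArg Fin.val (h k)
    have h2 : (⟨(k.1 + 7 - 1) % 6, Nat.mod_lt _ (by norm_num)⟩ : Fin 6) = k :=
      Fin.ext (by have := k.2; simp only; omega)
    simp only [h2] at h1
    omega
  · refine (card_le_card_of_injOn (t := range (12 * m)) Fin.val (fun x hx => ?_)
      (fun x _ y _ h => Fin.ext h)).trans (card_range _).le
    have h1 := (mem_filter.mp hx).2
    refine mem_coe.mpr (mem_range.mpr ?_)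
    by_contra h
    exact h1 (if_neg h)

section
variable {n : ℕ} (τ : Fin n → ℕ) (pt : Fin n → ℕ → Fin n)

/-- the base hypergraph -/
def base : Finset (Finset (Fin n)) :=
  univ.filter (fun s => s.card = 3 ∧ ∀ x ∈ s, ∀ y ∈ s, ∀ z ∈ s, x ≠ y → x ≠ z → y ≠ z →
    B (τ x) (τ y) (τ z) = true ∧ (P (τ x) (τ y) (τ z) = true → y = pt x (τ y)))

theorem base_free (h1 : ∀ x, τ x < 13)
    (h3 : ∀ x y, (∀ k : Fin 6, pt x (k.1 + 1) = pt y (k.1 + 1)) → x = y)
    (h4 : ∀ x y, (∀ k : Fin 6, pt x (k.1 + 7) = pt y (k.1 + 7)) → x = y) :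
    ¬ ∃ φ : Fin 9 ↪ Fin n, ∀ f ∈ F9, f.map φ ∈ base τ pt := by
  rintro ⟨φ, hφ⟩
  have key : ∀ p u w, Ed p u w = true → B (τ (φ p)) (τ (φ u)) (τ (φ w)) = true ∧
      (P (τ (φ p)) (τ (φ u)) (τ (φ w)) = true → φ u = pt (φ p) (τ (φ u))) := by
    intro p u w h
    obtain ⟨a, b, c, d⟩ := ed_mem p u w h
    exact (mem_filter.mp (hφ _ a)).2.2 _ (mem_map_of_mem _ (by simp)) _
      (mem_map_of_mem _ (by simp)) _ (mem_map_of_mem _ (by simp)) (φ.injective.ne b)
      (φ.injective.ne c) (φ.injective.ne d)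
  have det : ∀ p u, Det (fun v => τ (φ v)) p u → φ u = pt (φ p) (τ (φ u)) := by
    rintro p u ⟨w, a, b⟩
    exact (key p u w a).2 b
  rcases check (fun v => τ (φ v)) (fun v => h1 _) (fun p u w h => (key p u w h).1) with
    ⟨p, u, a, u', b, c, d⟩ | ⟨p, q, a, b | b⟩
  · refine b (φ.injective ?_)
    rw [det p u a, det p u' d, show τ (φ u) = τ (φ u') from c]
  · refine a (φ.injective (h3 _ _ fun k => ?_))
    obtain ⟨u, c, d, e⟩ := b k
    rw [← show τ (φ u) = _ from c, ← det p u d, ← det q u e]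
  · refine a (φ.injective (h4 _ _ fun k => ?_))
    obtain ⟨u, c, d, e⟩ := b k
    rw [← show τ (φ u) = _ from c, ← det p u d, ← det q u e]

theorem base_serve (h1 : ∀ x, τ x < 13) (h2 : ∀ x k, 1 ≤ k → k ≤ 12 → τ (pt x k) = k)
    {x y z : Fin n} (hx : τ x = 0) (hy : τ y = 0) (hxy : x ≠ y) (hxz : x ≠ z) (hyz : y ≠ z) :
    ∃ φ : Fin 9 ↪ Fin n, ({0, 1, 2} : Finset (Fin 9)).map φ = {x, y, z} ∧
      ∀ f ∈ F9, f ≠ {0, 1, 2} → f.map φ ∈ base τ pt := by
  obtain ⟨o, ho, hz⟩ : ∃ o ∈ ({0, 6} : Finset ℕ), τ z ≤ o ∨ o + 6 < τ z := by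
    by_cases h : τ z ≤ 6
    · exact ⟨6, by simp, Or.inl h⟩
    · exact ⟨0, by simp, Or.inr (by omega)⟩
  have ho' : o ≤ 6 := by
    rcases mem_insert.mp ho with h | h
    · omega
    · exact (mem_singleton.mp h).le
  let φ : Fin 9 → Fin n := ![x, y, z, pt x (o + 1), pt x (o + 2), pt x (o + 3), pt x (o + 4),
    pt x (o + 5), pt x (o + 6)]
  have ht : ∀ v, τ (φ v) = ![0, 0, τ z, o + 1, o + 2, o + 3, o + 4, o + 5, o + 6] v := by
    intro v
    fin_cases v
    · exact hx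
    · exact hy
    · rfl
    all_goals exact h2 _ _ (by omega) (by omega)
  have hp : ∀ v, 3 ≤ v → φ v = pt (φ 0) (τ (φ v)) := by
    intro v hv
    rw [ht]
    fin_cases v
    · exact absurd hv (by decide)
    · exact absurd hv (by decide)
    · exact absurd hv (by decide)
    all_goals rfl
  have hi : Function.Injective φ := by
    intro u v huv
    rcases serve_inj o ho (τ z) (h1 z) hz u v (by rw [← ht, ← ht, huv]) with h | ⟨a, b⟩
    · exact h
    · have a' : u = 0 ∨ u = 1 ∨ u = 2 := by omega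
      have b' : v = 0 ∨ v = 1 ∨ v = 2 := by omega
      rcases a' with rfl | rfl | rfl <;> rcases b' with rfl | rfl | rfl
      · rfl
      · exact absurd huv hxy
      · exact absurd huv hxz
      · exact absurd huv hxy.symm
      · rfl
      · exact absurd huv hyz
      · exact absurd huv hxz.symm
      · exact absurd huv hyz.symm
      · rfl
  refine ⟨⟨φ, hi⟩, ?_, fun f hf hfe => mem_filter.mpr ⟨mem_univ _, ?_, ?_⟩⟩
  · rw [map_insert, map_insert, map_singleton]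
    rfl
  · rw [card_map, card_F9 f hf]
  · intro a ha b hb c hc hab hac hbc
    obtain ⟨p, hp', rfl⟩ := mem_map.mp ha
    obtain ⟨u, hu', rfl⟩ := mem_map.mp hb
    obtain ⟨w, hw', rfl⟩ := mem_map.mp hc
    obtain ⟨e1, e2⟩ := mem_ed f hf hfe p hp' u hu' w hw' (fun h => hab (h ▸ rfl))
      (fun h => hac (h ▸ rfl)) (fun h => hbc (h ▸ rfl))
    obtain ⟨e3, e4⟩ := serve_tab o ho (τ z) (h1 z) hz p u w e1 e2
    rw [← ht, ← ht, ← ht] at e3 e4
    refine ⟨e3, fun h => ?_⟩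
    obtain ⟨rfl, e5⟩ := e4 h
    exact hp u e5

end

theorem upper (n : ℕ) (hn : 48 ≤ n) : ∃ G : Finset (Finset (Fin n)), (∀ s ∈ G, s.card = 3) ∧
    (¬ ∃ φ : Fin 9 ↪ Fin n, ∀ f ∈ F9, f.map φ ∈ G) ∧
    (∀ s : Finset (Fin n), s.card = 3 → s ∉ G →
      ∃ φ : Fin 9 ↪ Fin n, ∀ f ∈ F9, f.map φ ∈ insert s G) ∧
    G.card ^ 3 ≤ 10 ^ 9 * n ^ 4 := by
  obtain ⟨m, h6, h64⟩ : ∃ m, n ≤ m ^ 6 ∧ m ^ 6 ≤ 64 * n := by
    have hex : ∃ m, n ≤ m ^ 6 := ⟨n, Nat.le_self_pow (by norm_num) n⟩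
    refine ⟨Nat.find hex, Nat.find_spec hex, ?_⟩
    have h2 : 2 ≤ Nat.find hex := by
      rw [Nat.le_find_iff]
      intro k hk
      interval_cases k <;> omega
    have h3 := Nat.find_min hex (show Nat.find hex - 1 < Nat.find hex by omega)
    calc Nat.find hex ^ 6 ≤ (2 * (Nat.find hex - 1)) ^ 6 := Nat.pow_le_pow_left (by omega) 6
      _ = 64 * (Nat.find hex - 1) ^ 6 := by ring
      _ ≤ 64 * n := by omega
  have h12 : 12 * m ≤ n := by
    by_contra h
    have h1 : n ^ 6 ≤ (12 * m) ^ 6 := Nat.pow_le_pow_left (by omega) 6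
    have h2 : 48 ^ 5 ≤ n ^ 5 := Nat.pow_le_pow_left hn 5
    have h3 : 48 ^ 5 * n ≤ n ^ 6 := by rw [pow_succ n 5]; exact Nat.mul_le_mul_right _ h2
    rw [mul_pow] at h1
    omega
  obtain ⟨τ, pt, h1, h2, h3, h4, h5⟩ := design n m h12 h6
  obtain ⟨G, g0, g1, g2, g3⟩ := H80.exists_saturated (r := 3) F9 (base τ pt)
    (fun s hs => (mem_filter.mp hs).2.1) (base_free τ pt h1 h3 h4)
  refine ⟨G, g1, g2, g3, ?_⟩
  have key := H80.card_pairs_le G
    (univ.filter (fun x => τ x ≠ 0) ×ˢ univ.filter (fun x => τ x ≠ 0)) g1 (fun s hs => by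
      have hno : ∀ x y z, s = {x, y, z} → x ≠ y → x ≠ z → y ≠ z → τ x ≠ 0 ∨ τ y ≠ 0 := by
        intro x y z e hxy hxz hyz
        by_contra hc
        obtain ⟨φ, a, b⟩ := base_serve τ pt h1 h2 (not_not.mp (not_or.mp hc).1)
          (not_not.mp (not_or.mp hc).2) hxy hxz hyz
        refine g2 ⟨φ, fun f hf => ?_⟩
        by_cases hfe : f = {0, 1, 2}
        · rw [hfe, a, ← e]; exact hs
        · exact g0 (b f hf hfe)
      obtain ⟨x, y, z, hxy, hxz, hyz, e⟩ := card_eq_three.mp (g1 s hs)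
      have a := hno x y z e hxy hxz hyz
      have b := hno x z y (by rw [e, pair_comm]) hxz hxy hyz.symm
      have c := hno y z x (by rw [e, insert_comm, pair_comm]) hyz hxy.symm hxz.symm
      have fin : ∀ u v, τ u ≠ 0 → τ v ≠ 0 → u ≠ v → u ∈ s → v ∈ s →
          ∃ p ∈ univ.filter (fun x => τ x ≠ 0) ×ˢ univ.filter (fun x => τ x ≠ 0),
            p.1 ≠ p.2 ∧ p.1 ∈ s ∧ p.2 ∈ s := fun u v hu hv huv a b =>
        ⟨(u, v), mem_product.mpr ⟨mem_filter.mpr ⟨mem_univ _, hu⟩,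
          mem_filter.mpr ⟨mem_univ _, hv⟩⟩, huv, a, b⟩
      have mx : x ∈ s := by simp [e]
      have my : y ∈ s := by simp [e]
      have mz : z ∈ s := by simp [e]
      rcases a with a | a
      · rcases c with c | c
        · exact fin x y a c hxy mx my
        · exact fin x z a c hxz mx mz
      · rcases b with b | b
        · exact fin x y b a hxy mx my
        · exact fin y z a b hyz my mz)
  rw [card_product, show 3 - 2 = 1 from rfl, Nat.choose_one_right] at key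
  have k2 : G.card ≤ 12 * m * (12 * m) * n :=
    key.trans (Nat.mul_le_mul_right _ (Nat.mul_le_mul h5 h5))
  calc G.card ^ 3 ≤ (12 * m * (12 * m) * n) ^ 3 := Nat.pow_le_pow_left k2 3
    _ = 144 ^ 3 * m ^ 6 * n ^ 3 := by ring
    _ ≤ 144 ^ 3 * (64 * n) * n ^ 3 := by gcongr
    _ = 144 ^ 3 * 64 * n ^ 4 := by ring
    _ ≤ 10 ^ 9 * n ^ 4 := Nat.mul_le_mul_right _ (by norm_num)

end Pool.Agent.MP_038f7f_co.H79
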